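import Pool.Agent.MP_1c76f0_nt.Mg.Mono

/- Words generated by a morphism of exponential growth are short concatenations of few blocks. -/

namespace Pool.Agent.MP_1c76f0_nt.H54

open Filter Finset

theorem it_flat {A : Type} (σ : A → List A) (m : ℕ) (u : List A) :
    (fun l : List A => l.flatMap σ)^[m] u =
      u.flatMap (fun b => (fun l : List A => l.flatMap σ)^[m] [b]) := by
  induction m with
  | zero => simp
  | succ m ih =>
    simp only [Function.iterate_succ_apply']
    rw [ih, List.flatMap_assoc]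

theorem flat_len {A : Type} (σ : A → List A) (L : ℕ) (h : ∀ b, (σ b).length ≤ L) (u : List A) :
    (u.flatMap σ).length ≤ L * u.length := by
  induction u with
  | nil => simp
  | cons b u ih =>
    rw [List.flatMap_cons, List.length_append, List.length_cons, Nat.mul_succ]
    have := h b
    omega

theorem it_len {A : Type} (σ : A → List A) (L : ℕ) (h : ∀ b, (σ b).length ≤ L) (c : ℕ)
    (u : List A) : ((fun l : List A => l.flatMap σ)^[c] u).length ≤ L ^ c * u.length := by
  induction c with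
  | zero => simp
  | succ c ih =>
    rw [Function.iterate_succ_apply']
    calc _ ≤ L * _ := flat_len σ L h _
      _ ≤ L * (L ^ c * u.length) := Nat.mul_le_mul_left _ ih
      _ = _ := by ring

theorem mem_len {A B : Type} (f : A → List B) (u : List A) (b : A) (hb : b ∈ u) :
    (f b).length ≤ (u.flatMap f).length := by
  induction u with
  | nil => simp at hb
  | cons c u ih =>
    rw [List.flatMap_cons, List.length_append]
    rcases List.mem_cons.1 hb with rfl | h
    · omega
    · have := ih h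
      omega

theorem val_flat {A : Type} (a : A) (f : A → List ℕ) (u : List A) : ∃ e : ℕ → ℕ,
    Nat.ofDigits 10 (u.flatMap f) =
      ∑ i ∈ range u.length, Nat.ofDigits 10 (f (u.getD i a)) * 10 ^ e i := by
  induction u with
  | nil => exact ⟨fun _ => 0, by simp⟩
  | cons b u ih =>
    obtain ⟨e, he⟩ := ih
    refine ⟨fun i => if i = 0 then 0 else (f b).length + e (i - 1), ?_⟩
    rw [List.flatMap_cons, Nat.ofDigits_append, he, List.length_cons, sum_range_succ', mul_sum,
      add_comm]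
    congr 1
    · refine sum_congr rfl fun i _ => ?_
      simp only [List.getD_cons_succ, Nat.succ_ne_zero, if_false, Nat.add_sub_cancel, pow_add]
      ring
    · simp

theorem val_range (d : ℕ → ℕ) (N : ℕ) :
    Nat.ofDigits 10 ((List.range N).map d) = ∑ k ∈ range N, d k * 10 ^ k := by
  induction N with
  | zero => simp
  | succ N ih =>
    rw [List.range_succ, List.map_append, Nat.ofDigits_append, ih, sum_range_succ]
    simp [mul_comm]

theorem growth (l : ℕ → ℕ) (θ : ℝ) (hθ : 1 < θ) (hg : ∀ᶠ m in atTop, θ ^ m ≤ (l m : ℝ)) (K : ℕ) :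
    ∃ r : ℕ, ∃ᶠ m in atTop, K * l m ≤ l (m + r) := by
  obtain ⟨r, hr⟩ := pow_unbounded_of_one_lt ((K : ℝ) + 1) hθ
  refine ⟨r, ?_⟩
  by_contra hcon
  rw [not_frequently] at hcon
  obtain ⟨m1, hm⟩ := eventually_atTop.1 (hg.and hcon)
  have h1 : ∀ i, l (m1 + i * r) ≤ (K + 1) ^ i * l m1 := by
    intro i
    induction i with
    | zero => simp
    | succ i ih =>
      have h2 := (hm (m1 + i * r) (by omega)).2
      have h3 : m1 + (i + 1) * r = m1 + i * r + r := by ring
      rw [h3]
      calc _ ≤ (K + 1) * l (m1 + i * r) := by nlinarith [not_le.1 h2]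
        _ ≤ (K + 1) * ((K + 1) ^ i * l m1) := Nat.mul_le_mul_left _ ih
        _ = _ := by ring
  have hK : (0 : ℝ) < (K : ℝ) + 1 := by positivity
  obtain ⟨i, hi⟩ := pow_unbounded_of_one_lt (l m1 : ℝ) ((one_lt_div hK).2 hr)
  have h4 := (hm (m1 + i * r) (by omega)).1
  have h5 : (l (m1 + i * r) : ℝ) ≤ ((K : ℝ) + 1) ^ i * l m1 := by exact_mod_cast h1 i
  have h6 : (θ ^ r) ^ i ≤ θ ^ (m1 + i * r) := by
    rw [← pow_mul]
    exact pow_le_pow_right₀ hθ.le (by rw [mul_comm]; omega)
  rw [div_pow, lt_div_iff₀ (by positivity)] at hi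
  nlinarith

theorem not_morphic {A : Type} [Fintype A] (σ : A → List A) (a : A) (τ : A → ℕ) (d : ℕ → ℕ)
    (h9 : ∀ k, d k ≤ 9) (h0 : d 0 ≠ 0) (hd : ∀ n : ℕ, 2 ^ n ∣ ∑ k ∈ range n, d k * 10 ^ k)
    (θ : ℝ) (hθ : 1 < θ)
    (hg : ∀ᶠ m in atTop, θ ^ m ≤ (((fun l : List A => l.flatMap σ)^[m] [a]).length : ℝ)) :
    ¬ ∀ᶠ m in atTop, ((fun l : List A => l.flatMap σ)^[m] [a]).map τ =
      (List.range ((fun l : List A => l.flatMap σ)^[m] [a]).length).map d := by
  classical
  intro hp
  set S : List A → List A := fun l => l.flatMap σ with hS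
  obtain ⟨K, B, n0, -, hT⟩ := transfer_mono (Fintype.card A)
  obtain ⟨L, hL1, hL⟩ : ∃ L, 1 ≤ L ∧ ∀ b, (σ b).length ≤ L :=
    ⟨univ.sup (fun b => (σ b).length) + 1, by omega, fun b =>
      (le_sup (f := fun b => (σ b).length) (mem_univ b)).trans (by omega)⟩
  obtain ⟨c, hc⟩ : ∃ c, ∀ b, (∃ j, b ∈ S^[j] [a]) → ∃ j, j ≤ c ∧ b ∈ S^[j] [a] := by
    refine ⟨univ.sup (fun b => if h : ∃ j, b ∈ S^[j] [a] then h.choose else 0), fun b h =>
      ⟨h.choose, ?_, h.choose_spec⟩⟩
    refine le_trans ?_ (le_sup (mem_univ b))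
    simp only [dif_pos h, le_refl]
  obtain ⟨r, hr⟩ := growth (fun m => (S^[m] [a]).length) θ hθ hg (K * L ^ c)
  set u := S^[r] [a] with hu
  have hbig : ∀ᶠ m in atTop, n0 + B ^ u.length + 1 ≤ (S^[m] [a]).length := by
    filter_upwards [hg, (tendsto_pow_atTop_atTop_of_one_lt hθ).eventually_ge_atTop
      ((n0 + B ^ u.length + 1 : ℕ) : ℝ)] with m h1 h2
    exact_mod_cast h2.trans h1
  obtain ⟨m, h1, h2, h3, h3'⟩ :=
    (hr.and_eventually (hbig.and ((tendsto_add_atTop_nat r).eventually (hp.and hbig)))).exists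
  set f : A → List ℕ := fun b => (S^[m] [b]).map τ with hf
  have h4 : (S^[m + r] [a]).map τ = u.flatMap f := by
    rw [Function.iterate_add_apply, ← hu, hS, it_flat, List.map_flatMap]
  obtain ⟨e, he⟩ := val_flat a f u
  set N := (S^[m + r] [a]).length with hN
  set n := L ^ c * (S^[m] [a]).length with hn
  have h5 : (S^[m] [a]).length ≤ n := Nat.le_mul_of_pos_left _ (by positivity)
  have h6 : K * n ≤ N := by rw [hn, ← mul_assoc]; exact h1
  have h7 : ∑ i ∈ range u.length, ((Nat.ofDigits 10 (f (u.getD i a)) : ℕ) : ℤ) * 10 ^ e i =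
      ((∑ k ∈ range N, d k * 10 ^ k : ℕ) : ℤ) := by
    rw [← val_range, ← h3, h4, he]
    push_cast
    rfl
  have h8 : ∀ b ∈ u, Nat.ofDigits 10 (f b) ≤ 10 ^ n := by
    intro b hb
    obtain ⟨j, hj, hbj⟩ := hc b ⟨r, hb⟩
    have k1 : (f b).length ≤ n := by
      have k2 := mem_len (fun b => S^[m] [b]) _ b hbj
      rw [hS, ← it_flat, ← hS, ← Function.iterate_add_apply, add_comm,
        Function.iterate_add_apply] at k2
      rw [hf, List.length_map]
      exact k2.trans ((it_len σ L hL j _).trans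
        (Nat.mul_le_mul_right _ (Nat.pow_le_pow_right hL1 hj)))
    refine (Nat.ofDigits_lt_base_pow_length (by norm_num) fun x hx => ?_).le.trans
      (Nat.pow_le_pow_right (by norm_num) k1)
    have k3 : x ∈ (List.range N).map d := by
      rw [← h3, h4]
      exact List.mem_flatMap.2 ⟨b, hb, hx⟩
    obtain ⟨i, -, rfl⟩ := List.mem_map.1 k3
    have := h9 i
    omega
  have key := hT n (by omega) ℕ (range u.length)
    (fun i => ((Nat.ofDigits 10 (f (u.getD i a)) : ℕ) : ℤ)) e
    (u.toFinset.image fun b => ((Nat.ofDigits 10 (f b) : ℕ) : ℤ))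
    (card_image_le.trans (card_le_univ _))
    (fun x hx => by
      obtain ⟨b, hb, rfl⟩ := mem_image.1 hx
      rw [Nat.abs_cast]
      exact_mod_cast h8 b (List.mem_toFinset.1 hb))
    (fun i hi => mem_image.2 ⟨u.getD i a, List.mem_toFinset.2 (by
      rw [List.getD_eq_getElem _ _ (mem_range.1 hi)]
      exact List.getElem_mem _), rfl⟩)
    (by rw [card_range]; omega)
    (by rw [h7]; exact_mod_cast (pow_dvd_pow 2 h6).trans (hd N))
  rw [h7] at key
  have k5 : 5 ∣ ∑ k ∈ range N, d k * 10 ^ k := by exact_mod_cast key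
  have hN0 : N ≠ 0 := by omega
  obtain ⟨M, hM⟩ := Nat.exists_eq_succ_of_ne_zero hN0
  rw [hM, sum_range_succ'] at k5
  have k7 : 5 ∣ ∑ k ∈ range M, d (k + 1) * 10 ^ (k + 1) :=
    dvd_sum fun k _ => Dvd.dvd.mul_left (Dvd.dvd.pow (by norm_num) (by omega)) _
  have k8 := (Nat.dvd_add_right k7).1 k5
  have k9 := hd 1
  have := h9 0
  simp at k8 k9
  omega

end Pool.Agent.MP_1c76f0_nt.H54
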